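import Pool.Agent.Helper40_ZOL.Kit

/-!
# ZOL, row MSTEP (helper9): moves are compatible with the product
-/

set_option autoImplicit false

namespace Pool.Agent.ZOL.H9

theorem relab_top (σ : ℕ → ℕ) (a b : ℕ) (t m d e : Bool) :
    relab σ (topPair a b t m d e) = topPair (σ a) (σ b) t m d e := by
  unfold topPair
  split <;> rfl

theorem relab_mid (σ : ℕ → ℕ) (a b : ℕ) (t m d e : Bool) :
    relab σ (midPair a b t m d e) = midPair (σ a) (σ b) t m d e := by
  unfold midPair
  split <;> rfl

theorem relab_bot (σ : ℕ → ℕ) (a b : ℕ) (t m d e : Bool) :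
    relab σ (botPair a b t m d e) = botPair (σ a) (σ b) t m d e := by
  unfold botPair
  split <;> rfl

theorem relab_comp (σ τ : ℕ → ℕ) (w : Word) : relab σ (relab τ w) = relab (fun n => σ (τ n)) w := by
  simp [relab]

theorem relab_congr' {σ τ : ℕ → ℕ} {w : Word} (h : ∀ n, σ n = τ n) : relab σ w = relab τ w := by
  rw [funext h]

/-- The extension of a renaming of the first factor. -/
def ext (σ : ℕ → ℕ) (n : ℕ) : ℕ := if n % 2 = 0 then 2 * σ (n / 2) else n

theorem ext_even (σ : ℕ → ℕ) (n : ℕ) : ext σ (2 * n) = 2 * σ n := by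
  unfold ext
  have h1 : 2 * n % 2 = 0 := by omega
  have h2 : 2 * n / 2 = n := by omega
  rw [if_pos h1, h2]

theorem ext_odd (σ : ℕ → ℕ) (n : ℕ) : ext σ (2 * n + 1) = 2 * n + 1 := by
  unfold ext
  have h1 : ¬ (2 * n + 1) % 2 = 0 := by omega
  rw [if_neg h1]

/-- MSTEP -/
theorem mstep : MStepStmt := by
  intro w w' E h
  cases h with
  | rename _ σ h =>
    have e : mul (relab σ w) E = relab (ext σ) (mul w E) := by
      unfold mul
      rw [relab_append, relab_comp, relab_comp, relab_comp]
      congr 1
      · exact relab_congr' fun n => (ext_even σ n).symm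
      · exact relab_congr' fun n => (ext_odd σ n).symm
    rw [e]
    apply Step.rename
    intro x hx y hy hxy
    have key : ∀ z ∈ labels (mul w E), (∃ n ∈ labels w, z = 2 * n) ∨ ∃ n, z = 2 * n + 1 := by
      intro z hz
      unfold mul at hz
      rw [labels_append, labels_relab, labels_relab, Finset.mem_union, Finset.mem_image,
        Finset.mem_image] at hz
      rcases hz with ⟨n, hn, rfl⟩ | ⟨n, -, rfl⟩
      · exact Or.inl ⟨n, hn, rfl⟩
      · exact Or.inr ⟨n, rfl⟩
    rcases key x (by exact_mod_cast hx) with ⟨n, hn, rfl⟩ | ⟨n, rfl⟩ <;>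
      rcases key y (by exact_mod_cast hy) with ⟨k, hk, rfl⟩ | ⟨k, rfl⟩
    · rw [ext_even, ext_even] at hxy
      have h1 : σ n = σ k := by omega
      rw [h (by exact_mod_cast hn) (by exact_mod_cast hk) h1]
    · rw [ext_even, ext_odd] at hxy
      omega
    · rw [ext_even, ext_odd] at hxy
      omega
    · rw [ext_odd, ext_odd] at hxy
      exact hxy
  | r1 u v a r o =>
    have := Step.r1 (relab (fun n => 2 * n) u)
      (relab (fun n => 2 * n) v ++ relab (fun n => 2 * n + 1) E) (2 * a) r o
    simpa [mul, relab_append, List.append_assoc] using this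
  | r2a u v z a b r o =>
    have := Step.r2a (relab (fun n => 2 * n) u) (relab (fun n => 2 * n) v)
      (relab (fun n => 2 * n) z ++ relab (fun n => 2 * n + 1) E) (2 * a) (2 * b) r o
    simpa [mul, relab_append, List.append_assoc] using this
  | r2b u v z a b r o =>
    have := Step.r2b (relab (fun n => 2 * n) u) (relab (fun n => 2 * n) v)
      (relab (fun n => 2 * n) z ++ relab (fun n => 2 * n + 1) E) (2 * a) (2 * b) r o
    simpa [mul, relab_append, List.append_assoc] using this
  | r3 u₀ u₁ u₂ u₃ s₁ s₂ s₃ a b c t m d e h =>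
    have h1 := h.map (relab (fun n => 2 * n))
    simp only [List.map_cons, List.map_nil, relab_top, relab_mid, relab_bot] at h1
    have := Step.r3 (relab (fun n => 2 * n) u₀) (relab (fun n => 2 * n) u₁)
      (relab (fun n => 2 * n) u₂) (relab (fun n => 2 * n) u₃ ++ relab (fun n => 2 * n + 1) E)
      (relab (fun n => 2 * n) s₁) (relab (fun n => 2 * n) s₂) (relab (fun n => 2 * n) s₃)
      (2 * a) (2 * b) (2 * c) t m d e h1
    simpa only [mul, relab_append, relab_reverse, List.append_assoc] using this

end Pool.Agent.ZOL.H9
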